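import Mathlib
import Pool.Agent.X100.SUC.Fin

set_option autoImplicit false

open MeasureTheory
open Pool.Agent.X100.SUC

namespace Pool.Agent.Results.MP_b3ccf3_an.StrongUniqueContinuation

/-- Strong unique continuation for `|∂̄u| ≤ V|u|` with the critical potential `V ∈ L^{2n}_loc`.
`u ∈ L^q_loc(Ω; ℂ^m)` for some `q ≥ 2n/(2n-1)` (in Q1: `q = p' = 4n/(2n-1)`), its distributional
derivatives `h j = ∂u/∂z̄_j` are locally integrable functions (in Q1: `u ∈ W^{1,p}_loc`), and `u`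
vanishes to infinite order in the `L^q` sense at one point. Then `u = 0` almost everywhere. -/
theorem result (n m : ℕ) (hn : 2 ≤ n) (Ω : Set (Fin n → ℂ)) (hΩ : IsOpen Ω) (hc : IsConnected Ω)
    (u : (Fin n → ℂ) → Fin m → ℂ) (h : Fin n → (Fin n → ℂ) → Fin m → ℂ)
    (V : (Fin n → ℂ) → ℝ) (q : ℝ) (hq : (2 * n : ℝ) / (2 * n - 1) ≤ q)
    (hu : LocLp q Ω u) (hh : ∀ j, LocLp 1 Ω (h j)) (hw : ∀ j, IsWeakDbar Ω j u (h j))
    (hV : LocLp (2 * n) Ω V)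
    (hineq : ∀ᵐ z ∂(volume.restrict Ω),
      Real.sqrt (∑ j, ∑ c, ‖h j z c‖ ^ 2) ≤ V z * nrm (u z))
    (z0 : Fin n → ℂ) (hz0 : z0 ∈ Ω) (hvan : VanishesInfOrder q u z0) :
    ∀ᵐ z ∂(volume.restrict Ω), u z = 0 :=
  main hn hΩ hc.isPreconnected hq hu hh hw hV hineq hz0 hvan

end Pool.Agent.Results.MP_b3ccf3_an.StrongUniqueContinuation
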